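import Mathlib

namespace Pool.Agent.Results.MP_93e32b_nt.No

open Polynomial

theorem nine (N : ℤ) (h3 : 3 ∣ N) : ∀ (n : ℕ) (D A B : ℤ), D.natAbs = n → D ≠ 0 →
    N * D ^ 2 = A ^ 2 + B ^ 2 → 9 ∣ N := by
  intro n
  induction n using Nat.strong_induction_on with | _ n ih => ?_
  intro D A B hn hD h
  have k : ∀ a b : ZMod 3, a ^ 2 + b ^ 2 = 0 → a = 0 ∧ b = 0 := by decide
  obtain ⟨M, rfl⟩ := h3
  have := k A B (by
    have := congrArg (Int.cast : ℤ → ZMod 3) h
    push_cast at this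
    rw [← this, show (3 : ZMod 3) = 0 from rfl]; ring)
  obtain ⟨a, rfl⟩ := (ZMod.intCast_zmod_eq_zero_iff_dvd A 3).1 this.1
  obtain ⟨b, rfl⟩ := (ZMod.intCast_zmod_eq_zero_iff_dvd B 3).1 this.2
  by_cases e : 3 ∣ D
  · obtain ⟨d, rfl⟩ := e
    exact ih d.natAbs (by omega) d a b rfl (by omega) (by push_cast at h; linarith)
  · have : (3 : ℤ) ∣ M * D ^ 2 := ⟨a ^ 2 + b ^ 2, by push_cast at h; linarith⟩
    rcases Int.prime_three.dvd_or_dvd this with ⟨c, rfl⟩ | h
    · exact ⟨c, by ring⟩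
    · exact (e (Int.prime_three.dvd_of_dvd_pow h)).elim

theorem val (y : ℤ) (s t : ℚ) (h : (y : ℚ) ^ 3 - y + 3 = s ^ 2 + t ^ 2) :
    (y : ZMod 9) ^ 3 - y + 3 = 0 := by
  have h3 : (3 : ℤ) ∣ y ^ 3 - y + 3 := (ZMod.intCast_zmod_eq_zero_iff_dvd _ 3).1 (by
    push_cast
    generalize (y : ZMod 3) = z
    revert z
    decide)
  have := nine _ h3 _ (s.den * t.den) (s.num * t.den) (t.num * s.den) rfl (by positivity) (by
    have hs := Rat.mul_den_eq_num s
    have ht := Rat.mul_den_eq_num t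
    have : (((y ^ 3 - y + 3) * (s.den * t.den) ^ 2 : ℤ) : ℚ) =
        ((s.num * t.den) ^ 2 + (t.num * s.den) ^ 2 : ℤ) := by
      push_cast
      rw [h, ← hs, ← ht]; ring
    exact_mod_cast this)
  have := (ZMod.intCast_zmod_eq_zero_iff_dvd _ 9).2 this
  push_cast at this
  exact this

theorem desc (c : ℤ) : ∀ (n : ℕ) (a b : ℤ), a.natAbs = n → a ≠ 0 →
    ¬∀ x : ℚ, ∃ s t : ℚ, (a * x ^ 2 + b * x + c) ^ 3 - (a * x ^ 2 + b * x + c) + 3 =
      s ^ 2 + t ^ 2 := by
  intro n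
  induction n using Nat.strong_induction_on with | _ n ih => ?_
  intro a b hn ha h
  have k : ∀ x : ℤ, ((a : ZMod 9) * x ^ 2 + b * x + c) ^ 3 - (a * x ^ 2 + b * x + c) + 3 = 0 := by
    intro x
    obtain ⟨s, t, e⟩ := h x
    have := val (a * x ^ 2 + b * x + c) s t (by push_cast; exact e)
    push_cast at this
    exact this
  have K : ∀ a b c : ZMod 9, (∀ x : ZMod 9, (a * x ^ 2 + b * x + c) ^ 3 -
      (a * x ^ 2 + b * x + c) + 3 = 0) → a = 0 ∧ 3 * b = 0 := by decide +kernel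
  have := K a b c fun x => by
    obtain ⟨y, rfl⟩ := ZMod.intCast_surjective x
    exact k y
  obtain ⟨a, rfl⟩ := (ZMod.intCast_zmod_eq_zero_iff_dvd a 9).1 this.1
  obtain ⟨b', hb⟩ := (ZMod.intCast_zmod_eq_zero_iff_dvd (3 * b) 9).1 (by push_cast; exact this.2)
  obtain rfl : b = 3 * b' := by omega
  refine ih a.natAbs (by omega) a b' rfl (by omega) fun x => ?_
  obtain ⟨s, t, e⟩ := h (x / 3)
  refine ⟨s, t, Eq.trans ?_ e⟩
  push_cast
  ring

theorem result : ¬∀ p : ℤ[X], p.Monic → p.natDegree = 3 → Irreducible p →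
    ∃ q₀ q₁ q₂ : ℚ[X], q₀.natDegree = 2 ∧ (∀ n : ℤ, ∃ m : ℤ, q₀.eval (n : ℚ) = m) ∧
      (p.map (Int.castRingHom ℚ)).comp q₀ = q₁ ^ 2 + q₂ ^ 2 := by
  intro h
  have m : (X ^ 3 - X + 3 : ℤ[X]).Monic := by monicity!
  have d : (X ^ 3 - X + 3 : ℤ[X]).natDegree = 3 := by compute_degree!
  obtain ⟨q, u, v, h1, h2, h3⟩ := h _ m d
    ((m.irreducible_iff_roots_eq_zero_of_degree_le_three (by omega) (by omega)).2
      (Multiset.eq_zero_of_forall_notMem fun x hx => by
        have := congrArg (Int.cast : ℤ → ZMod 2) ((mem_roots m.ne_zero).1 hx)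
        simp only [eval_add, eval_sub, eval_pow, eval_X, eval_ofNat] at this
        push_cast at this
        generalize (x : ZMod 2) = z at this
        revert z
        decide))
  have e : ∀ x, q.eval x = q.coeff 2 * x ^ 2 + q.coeff 1 * x + q.coeff 0 := fun x => by
    rw [eval_eq_sum_range, h1]
    simp [Finset.sum_range_succ]
    ring
  have l : q.coeff 2 ≠ 0 := by
    rw [← h1]
    exact leadingCoeff_ne_zero.2 (by rintro rfl; simp at h1)
  obtain ⟨c, hc⟩ := h2 0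
  obtain ⟨i, hi⟩ := h2 1
  obtain ⟨j, hj⟩ := h2 (-1)
  rw [e] at hc hi hj
  push_cast at hc hi hj
  refine desc c _ (2 * (i + j - 2 * c)) (i - j) rfl (fun a => l ?_) fun x => ⟨u.eval (2 * x),
    v.eval (2 * x), ?_⟩
  · have : ((2 * (i + j - 2 * c) : ℤ) : ℚ) = 0 := by rw [a]; rfl
    push_cast at this
    linarith
  · have := congrArg (eval (2 * x)) h3
    simp only [eval_comp, eval_add, eval_pow, Polynomial.map_add, Polynomial.map_sub,
      Polynomial.map_pow, map_X, Polynomial.map_ofNat, eval_sub, eval_X, eval_ofNat] at this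
    rw [← this, e]
    push_cast
    rw [← hc, ← hi, ← hj]
    ring

end Pool.Agent.Results.MP_93e32b_nt.No
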